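import Mathlib

/-!
# Definitions and elementary facts on homogeneous symmetric ideals in a polynomial ring
-/

set_option autoImplicit false

namespace Pool.Agent.Q180.BI

open MvPolynomial

variable {k : Type*} [Field k] {n : ℕ}

/-- The ideal `I` is homogeneous: it contains the homogeneous components of its elements. -/
def Homog (I : Ideal (MvPolynomial (Fin n) k)) : Prop :=
  ∀ f ∈ I, ∀ d : ℕ, homogeneousComponent d f ∈ I

/-- The ideal `I` is symmetric: it is mapped onto itself by all permutations of the variables. -/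
def Symm (I : Ideal (MvPolynomial (Fin n) k)) : Prop :=
  ∀ (τ : Equiv.Perm (Fin n)) (f : MvPolynomial (Fin n) k), rename τ f ∈ I ↔ f ∈ I

/-- `f ≠ 0` is invariant up to scalars under the permutations of the variables. -/
def KSymm (f : MvPolynomial (Fin n) k) : Prop :=
  f ≠ 0 ∧ ∀ τ : Equiv.Perm (Fin n), ∃ c : k, rename τ f = C c * f

/-- `B` is a minimal (homogeneous) generating set of `I`. -/
def MinGen (B : Set (MvPolynomial (Fin n) k)) (I : Ideal (MvPolynomial (Fin n) k)) : Prop :=
  (∀ b ∈ B, ∃ d : ℕ, b.IsHomogeneous d) ∧ Ideal.span B = I ∧ ∀ B' : Set (MvPolynomial (Fin n) k),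
    B' ⊂ B → Ideal.span B' ≠ I

/-- `J` is generated by monomials and binomials. -/
def MonoBin (J : Ideal (MvPolynomial (Fin n) k)) : Prop :=
  ∃ B : Set (MvPolynomial (Fin n) k), Ideal.span B = J ∧ ∀ g ∈ B,
    (∃ m : Fin n →₀ ℕ, g = monomial m 1) ∨
    (∃ (m m' : Fin n →₀ ℕ) (a b : k), m ≠ m' ∧ a ≠ 0 ∧ b ≠ 0 ∧ g = monomial m a + monomial m' b)

/-- The Hilbert function `H_I(d) = dim (R/I)_d`, where `(R/I)_d` is the image in `R/I` of the forms of
degree `d`. -/
noncomputable def Hilb (I : Ideal (MvPolynomial (Fin n) k)) (d : ℕ) : ℕ :=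
  Module.finrank k ↥((homogeneousSubmodule (Fin n) k d).map (Ideal.Quotient.mkₐ k I).toLinearMap)

/-- the forms of degree `d` in `I` -/
noncomputable def part (I : Ideal (MvPolynomial (Fin n) k)) (d : ℕ) : Submodule k (MvPolynomial (Fin n) k) :=
  homogeneousSubmodule (Fin n) k d ⊓ I.restrictScalars k

instance (d : ℕ) : Module.Finite k (homogeneousSubmodule (Fin n) k d) :=
  Module.Finite.iff_fg.2 (homogeneousSubmodule_fg (Fin n) k d)

instance (I : Ideal (MvPolynomial (Fin n) k)) (d : ℕ) : Module.Finite k (part I d) :=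
  Submodule.finiteDimensional_of_le (inf_le_left)

lemma mem_part {I : Ideal (MvPolynomial (Fin n) k)} {d : ℕ} {f : MvPolynomial (Fin n) k} :
    f ∈ part I d ↔ f.IsHomogeneous d ∧ f ∈ I := by
  unfold part
  rw [Submodule.mem_inf, mem_homogeneousSubmodule, Submodule.restrictScalars_mem]

lemma Hilb_add (I : Ideal (MvPolynomial (Fin n) k)) (d : ℕ) :
    Hilb I d + Module.finrank k (part I d) = Module.finrank k (homogeneousSubmodule (Fin n) k d) := by
  have h := LinearMap.finrank_range_add_finrank_ker
    ((Ideal.Quotient.mkₐ k I).toLinearMap.domRestrict (homogeneousSubmodule (Fin n) k d))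
  rw [LinearMap.range_domRestrict] at h
  have h2 : part I d = (LinearMap.ker ((Ideal.Quotient.mkₐ k I).toLinearMap.domRestrict
      (homogeneousSubmodule (Fin n) k d))).map (homogeneousSubmodule (Fin n) k d).subtype := by
    ext f
    rw [mem_part, Submodule.mem_map]
    constructor
    · rintro ⟨h1, h2⟩
      refine ⟨⟨f, h1⟩, ?_, rfl⟩
      rw [LinearMap.mem_ker, LinearMap.domRestrict_apply]
      exact Ideal.Quotient.eq_zero_iff_mem.2 h2
    · rintro ⟨⟨g, hg⟩, h1, rfl⟩
      rw [LinearMap.mem_ker, LinearMap.domRestrict_apply] at h1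
      exact ⟨hg, Ideal.Quotient.eq_zero_iff_mem.1 h1⟩
  rw [h2, Submodule.finrank_map_subtype_eq]
  exact h

lemma finrank_part_eq {I J : Ideal (MvPolynomial (Fin n) k)} {d : ℕ} (h : Hilb J d = Hilb I d) :
    Module.finrank k (part J d) = Module.finrank k (part I d) := by
  have h1 := Hilb_add I d
  have h2 := Hilb_add J d
  omega

lemma comp_mul {e : ℕ} {g : MvPolynomial (Fin n) k} (hg : g.IsHomogeneous e) (c : ℕ)
    (a : MvPolynomial (Fin n) k) :
    homogeneousComponent (c + e) (a * g) = homogeneousComponent c a * g := by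
  induction a using MvPolynomial.induction_on' with
  | monomial u r =>
    have h1 : (monomial u r : MvPolynomial (Fin n) k).IsHomogeneous u.degree :=
      isHomogeneous_monomial r rfl
    rw [homogeneousComponent_of_mem (h1.mul hg), homogeneousComponent_of_mem h1]
    by_cases h : c = u.degree
    · rw [if_pos h, if_pos (by omega)]
    · rw [if_neg h, if_neg (by omega), zero_mul]
  | add p q hp hq => rw [add_mul, map_add, hp, hq, map_add, add_mul]

lemma comp_mul_lt {e : ℕ} {g : MvPolynomial (Fin n) k} (hg : g.IsHomogeneous e) {c : ℕ} (hc : c < e)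
    (a : MvPolynomial (Fin n) k) :
    homogeneousComponent c (a * g) = 0 := by
  induction a using MvPolynomial.induction_on' with
  | monomial u r =>
    have h1 : (monomial u r : MvPolynomial (Fin n) k).IsHomogeneous u.degree :=
      isHomogeneous_monomial r rfl
    rw [homogeneousComponent_of_mem (h1.mul hg), if_neg (by omega)]
  | add p q hp hq => rw [add_mul, map_add, hp, hq, add_zero]

lemma homog_span {B : Set (MvPolynomial (Fin n) k)} (hB : ∀ b ∈ B, ∃ d : ℕ, b.IsHomogeneous d) :
    Homog (Ideal.span B) := by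
  intro f hf d
  let _ := MvPolynomial.gradedAlgebra (σ := Fin n) (R := k)
  apply homogeneousComponent_mem_of_mem _ hf
  apply Ideal.homogeneous_span
  intro b hb
  obtain ⟨d, hd⟩ := hB b hb
  exact ⟨d, hd⟩

/-- elements of the ideal generated by elements of order at least `e` have order at least `e` -/
lemma order_span {B : Set (MvPolynomial (Fin n) k)} {e : ℕ}
    (hB : ∀ b ∈ B, ∀ m : Fin n →₀ ℕ, m.degree ≤ e → coeff m b = 0) :
    ∀ f ∈ Ideal.span B, ∀ m : Fin n →₀ ℕ, m.degree ≤ e → coeff m f = 0 := by
  intro f hf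
  induction hf using Submodule.span_induction with
  | mem x hx => exact hB x hx
  | zero => intro m _; rw [coeff_zero]
  | add x y _ _ hx hy => intro m hm; rw [coeff_add, hx m hm, hy m hm, add_zero]
  | smul a x _ hx =>
    intro m hm
    rw [smul_eq_mul, coeff_mul]
    apply Finset.sum_eq_zero
    intro p hp
    rw [Finset.HasAntidiagonal.mem_antidiagonal] at hp
    have : p.2.degree ≤ m.degree := by
      rw [← hp, map_add]; omega
    rw [hx p.2 (this.trans hm), mul_zero]

end Pool.Agent.Q180.BI
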