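import Pool.Agent.Q180.BI.Defs

/-!
# The ideal `(x + y + z) (x - y, y - z)`
-/

set_option autoImplicit false

namespace Pool.Agent.Q180.BI

open MvPolynomial

variable (k : Type*) [Field k]

/-- `x + y + z` -/
noncomputable def s : MvPolynomial (Fin 3) k := X 0 + X 1 + X 2
/-- `(x + y + z) (x - y)` -/
noncomputable def q1 : MvPolynomial (Fin 3) k := s k * (X 0 - X 1)
/-- `(x + y + z) (y - z)` -/
noncomputable def q2 : MvPolynomial (Fin 3) k := s k * (X 1 - X 2)

/-- The ideal `(x + y + z) (x - y, y - z)` -/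
noncomputable def I0 : Ideal (MvPolynomial (Fin 3) k) := Ideal.span {q1 k, q2 k}

variable {k}

lemma s_hom : (s k).IsHomogeneous 1 :=
  ((isHomogeneous_X k 0).add (isHomogeneous_X k 1)).add (isHomogeneous_X k 2)

lemma q1_hom : (q1 k).IsHomogeneous 2 :=
  s_hom.mul ((isHomogeneous_X k 0).sub (isHomogeneous_X k 1))

lemma q2_hom : (q2 k).IsHomogeneous 2 :=
  s_hom.mul ((isHomogeneous_X k 1).sub (isHomogeneous_X k 2))

lemma mem_I0 {f : MvPolynomial (Fin 3) k} : f ∈ I0 k ↔ ∃ a b, a * q1 k + b * q2 k = f :=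
  Ideal.mem_span_pair

lemma q1_mem : q1 k ∈ I0 k := Ideal.subset_span (by simp)
lemma q2_mem : q2 k ∈ I0 k := Ideal.subset_span (by simp)

lemma homog_I0 : Homog (I0 k) := by
  apply homog_span
  rintro b (rfl | rfl)
  · exact ⟨2, q1_hom⟩
  · exact ⟨2, q2_hom⟩

lemma rename_s (τ : Equiv.Perm (Fin 3)) : rename τ (s k) = s k := by
  have h : s k = ∑ i : Fin 3, X i := by rw [Fin.sum_univ_three]; rfl
  rw [h, map_sum]
  simp only [rename_X]
  exact Equiv.sum_comp τ (fun i => (X i : MvPolynomial (Fin 3) k))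

lemma s_mul_mem (i j : Fin 3) : s k * (X i - X j) ∈ I0 k := by
  have h0 : ∀ i : Fin 3, s k * (X i - X 2) ∈ I0 k := by
    intro i
    fin_cases i
    · have : s k * (X 0 - X 2) = q1 k + q2 k := by unfold q1 q2; ring
      simp only [Fin.zero_eta]
      rw [this]
      exact (I0 k).add_mem q1_mem q2_mem
    · exact q2_mem
    · simp
  have : s k * (X i - X j) = s k * (X i - X 2) - s k * (X j - X 2) := by ring
  rw [this]
  exact (I0 k).sub_mem (h0 i) (h0 j)

lemma rename_mem {f : MvPolynomial (Fin 3) k} (hf : f ∈ I0 k) (τ : Equiv.Perm (Fin 3)) :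
    rename τ f ∈ I0 k := by
  obtain ⟨a, b, rfl⟩ := mem_I0.1 hf
  rw [map_add, map_mul, map_mul]
  have h1 : rename τ (q1 k) ∈ I0 k := by
    unfold q1
    rw [map_mul, rename_s, map_sub, rename_X, rename_X]
    exact s_mul_mem _ _
  have h2 : rename τ (q2 k) ∈ I0 k := by
    unfold q2
    rw [map_mul, rename_s, map_sub, rename_X, rename_X]
    exact s_mul_mem _ _
  exact (I0 k).add_mem ((I0 k).mul_mem_left _ h1) ((I0 k).mul_mem_left _ h2)

lemma symm_I0 : Symm (I0 k) := by
  intro τ f
  refine ⟨fun h => ?_, fun h => rename_mem h τ⟩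
  have h2 := rename_mem h τ⁻¹
  rw [rename_rename] at h2
  have h3 : ((τ⁻¹ : Equiv.Perm (Fin 3)) : Fin 3 → Fin 3) ∘ τ = id := by
    funext x; simp
  rw [h3, rename_id_apply] at h2
  exact h2

lemma comp_lt {f : MvPolynomial (Fin 3) k} (hf : f ∈ I0 k) {d : ℕ} (hd : d < 2) :
    homogeneousComponent d f = 0 := by
  obtain ⟨a, b, rfl⟩ := mem_I0.1 hf
  rw [map_add, comp_mul_lt q1_hom hd, comp_mul_lt q2_hom hd, add_zero]

lemma comp_two {a b : MvPolynomial (Fin 3) k} :
    homogeneousComponent 2 (a * q1 k + b * q2 k) = C (coeff 0 a) * q1 k + C (coeff 0 b) * q2 k := by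
  have h1 := comp_mul (k := k) q1_hom 0 a
  have h2 := comp_mul (k := k) q2_hom 0 b
  rw [zero_add, homogeneousComponent_zero] at h1 h2
  rw [map_add, h1, h2]

lemma part_lt {d : ℕ} (hd : d < 2) : part (I0 k) d = ⊥ := by
  rw [eq_bot_iff]
  intro f hf
  rw [mem_part] at hf
  have h := comp_lt hf.2 hd
  rw [homogeneousComponent_eq_self hf.1] at h
  exact h

lemma finrank_two_le : Module.finrank k (part (I0 k) 2) ≤ 2 := by
  have h : part (I0 k) 2 ≤ Submodule.span k (Set.range ![q1 k, q2 k]) := by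
    intro f hf
    rw [mem_part] at hf
    obtain ⟨a, b, rfl⟩ := mem_I0.1 hf.2
    rw [← homogeneousComponent_eq_self hf.1, comp_two, ← smul_eq_C_mul, ← smul_eq_C_mul]
    apply Submodule.add_mem
    · exact Submodule.smul_mem _ _ (Submodule.subset_span ⟨0, rfl⟩)
    · exact Submodule.smul_mem _ _ (Submodule.subset_span ⟨1, rfl⟩)
  have : Module.Finite k (Submodule.span k (Set.range ![q1 k, q2 k])) :=
    FiniteDimensional.span_of_finite k (Set.finite_range _)
  have h1 := Submodule.finrank_mono h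
  have h2 := finrank_range_le_card (R := k) (b := ![q1 k, q2 k])
  rw [Fintype.card_fin] at h2
  exact h1.trans h2

lemma finrank_two_pos : 0 < Module.finrank k (part (I0 k) 2) := by
  rw [Module.finrank_pos_iff_exists_ne_zero]
  refine ⟨⟨q1 k, mem_part.2 ⟨q1_hom, q1_mem⟩⟩, fun h => ?_⟩
  have h2 : q1 k = 0 := congrArg Subtype.val h
  have h3 := congrArg (eval ![1, 0, 0]) h2
  simp [q1, s] at h3

lemma finrank_three_le : Module.finrank k (part (I0 k) 3) ≤ 5 := by
  have h : part (I0 k) 3 ≤ Submodule.span k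
      (Set.range ![X 0 * q1 k, X 1 * q1 k, X 2 * q1 k, X 1 * q2 k, X 2 * q2 k]) := by
    set W := Submodule.span k
      (Set.range ![X 0 * q1 k, X 1 * q1 k, X 2 * q1 k, X 1 * q2 k, X 2 * q2 k]) with hW
    have e0 : X 0 * q1 k ∈ W := Submodule.subset_span ⟨0, rfl⟩
    have e1 : X 1 * q1 k ∈ W := Submodule.subset_span ⟨1, rfl⟩
    have e2 : X 2 * q1 k ∈ W := Submodule.subset_span ⟨2, rfl⟩
    have e3 : X 1 * q2 k ∈ W := Submodule.subset_span ⟨3, rfl⟩
    have e4 : X 2 * q2 k ∈ W := Submodule.subset_span ⟨4, rfl⟩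
    have e5 : X 0 * q2 k ∈ W := by
      have : X 0 * q2 k = X 1 * q1 k - X 2 * q1 k + X 1 * q2 k := by
        unfold q1 q2; ring
      rw [this]
      exact W.add_mem (W.sub_mem e1 e2) e3
    have key : ∀ a : MvPolynomial (Fin 3) k, homogeneousComponent 1 a * q1 k ∈ W ∧
        homogeneousComponent 1 a * q2 k ∈ W := by
      intro a
      have h := homogeneousComponent_mem 1 a
      rw [homogeneousSubmodule_one_eq_span_X, Submodule.mem_span_range_iff_exists_fun] at h
      obtain ⟨c, hc⟩ := h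
      rw [Fin.sum_univ_three] at hc
      rw [← hc]
      simp only [add_mul, smul_mul_assoc]
      exact ⟨W.add_mem (W.add_mem (W.smul_mem _ e0) (W.smul_mem _ e1)) (W.smul_mem _ e2),
        W.add_mem (W.add_mem (W.smul_mem _ e5) (W.smul_mem _ e3)) (W.smul_mem _ e4)⟩
    intro f hf
    rw [mem_part] at hf
    obtain ⟨a, b, rfl⟩ := mem_I0.1 hf.2
    rw [← homogeneousComponent_eq_self hf.1, map_add, comp_mul q1_hom 1, comp_mul q2_hom 1]
    exact W.add_mem (key a).1 (key b).2
  have : Module.Finite k (Submodule.span k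
      (Set.range ![X 0 * q1 k, X 1 * q1 k, X 2 * q1 k, X 1 * q2 k, X 2 * q2 k])) :=
    FiniteDimensional.span_of_finite k (Set.finite_range _)
  have h1 := Submodule.finrank_mono h
  have h2 := finrank_range_le_card (R := k)
    (b := ![X 0 * q1 k, X 1 * q1 k, X 2 * q1 k, X 1 * q2 k, X 2 * q2 k])
  rw [Fintype.card_fin] at h2
  exact h1.trans h2

/-- a symmetric polynomial (up to scalars) in `I0` has no component of degree 2 -/
lemma ksymm_coeff [CharZero k] {a b : MvPolynomial (Fin 3) k}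
    (h : KSymm (a * q1 k + b * q2 k)) : coeff 0 a = 0 ∧ coeff 0 b = 0 := by
  obtain ⟨_, hτ⟩ := h
  set α := coeff 0 a with hα
  set β := coeff 0 b with hβ
  have key : ∀ τ : Equiv.Perm (Fin 3), ∃ c : k, C α * rename τ (q1 k) + C β * rename τ (q2 k) =
      C c * (C α * q1 k + C β * q2 k) := by
    intro τ
    obtain ⟨c, hc⟩ := hτ τ
    refine ⟨c, ?_⟩
    have h1 := congrArg (homogeneousComponent 2) hc
    rw [← rename_homogeneousComponent, homogeneousComponent_C_mul, comp_two, map_add, map_mul,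
      map_mul, rename_C, rename_C] at h1
    exact h1
  obtain ⟨c, hc⟩ := key (Equiv.swap 0 1)
  obtain ⟨d, hd⟩ := key (Equiv.swap 1 2)
  have e1 : (Equiv.swap (0 : Fin 3) 1) 2 = 2 := by decide
  have e2 : (Equiv.swap (1 : Fin 3) 2) 0 = 0 := by decide
  unfold q1 q2 at hc hd
  simp only [map_mul, rename_s, map_sub, rename_X, Equiv.swap_apply_left, Equiv.swap_apply_right,
    e1, e2] at hc hd
  have c1 := congrArg (eval ![1, 0, 0]) hc
  have c2 := congrArg (eval ![0, 0, 1]) hc
  have d1 := congrArg (eval ![1, 0, 0]) hd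
  have d2 := congrArg (eval ![0, 0, 1]) hd
  simp [s] at c1 c2 d1 d2
  by_cases hb0 : β = 0
  · rw [hb0] at d2
    simp at d2
    exact ⟨d2, hb0⟩
  · exfalso
    have hc1 : c = 1 := by
      have : (c - 1) * β = 0 := by linear_combination -c2
      rcases mul_eq_zero.1 this with h | h
      · linear_combination h
      · exact absurd h hb0
    rw [hc1] at c1
    have hb2 : β = 2 * α := by linear_combination c1
    have ha0 : α ≠ 0 := by
      intro h
      apply hb0
      rw [hb2, h, mul_zero]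
    have hd1 : d = 1 := by
      have : (d - 1) * α = 0 := by linear_combination -d1
      rcases mul_eq_zero.1 this with h | h
      · linear_combination h
      · exact absurd h ha0
    rw [hd1, hb2] at d2
    have h3 : (3 : k) * α = 0 := by linear_combination d2
    rcases mul_eq_zero.1 h3 with h | h
    · exact absurd h (by norm_num)
    · exact ha0 h

/-- no polynomial in `I0` of order at least 3 is needed: symmetric polynomials lie in `m I0` -/
lemma ksymm_mem [CharZero k] {g : MvPolynomial (Fin 3) k} (hg : g ∈ I0 k) (hs : KSymm g) :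
    g ∈ RingHom.ker (constantCoeff : MvPolynomial (Fin 3) k →+* k) * I0 k := by
  obtain ⟨a, b, rfl⟩ := mem_I0.1 hg
  obtain ⟨ha, hb⟩ := ksymm_coeff hs
  apply Ideal.add_mem
  · exact Ideal.mul_mem_mul (by rw [RingHom.mem_ker, constantCoeff_eq]; exact ha) q1_mem
  · exact Ideal.mul_mem_mul (by rw [RingHom.mem_ker, constantCoeff_eq]; exact hb) q2_mem

lemma not_ksymm [CharZero k] {B : Set (MvPolynomial (Fin 3) k)} (hB : MinGen B (I0 k)) :
    ∀ g ∈ B, ¬ KSymm g := by
  intro g hg hs
  obtain ⟨h1, h2, h3⟩ := hB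
  have hgI : g ∈ I0 k := by rw [← h2]; exact Ideal.subset_span hg
  obtain ⟨d, hd⟩ := h1 g hg
  -- `g` has degree at least 3
  have hd3 : 3 ≤ d := by
    by_contra hlt
    push Not at hlt
    apply hs.1
    rw [← homogeneousComponent_eq_self hd]
    rcases Nat.lt_or_ge d 2 with h | h
    · exact comp_lt hgI h
    · have : d = 2 := by omega
      subst this
      obtain ⟨a, b, rfl⟩ := mem_I0.1 hgI
      obtain ⟨ha, hb⟩ := ksymm_coeff hs
      rw [comp_two, ha, hb]
      simp
  have hss : B \ {g} ⊂ B := by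
    refine ⟨Set.sdiff_subset, fun h => ?_⟩
    exact (h hg).2 rfl
  apply h3 _ hss
  apply le_antisymm
  · rw [← h2]
    exact Ideal.span_mono Set.sdiff_subset
  · have hins : insert g (B \ {g}) = B := by
      rw [Set.insert_sdiff_singleton, Set.insert_eq_of_mem hg]
    have hhom : Homog (Ideal.span (B \ {g})) := homog_span fun b hb => h1 b hb.1
    have key : ∀ q : MvPolynomial (Fin 3) k, q ∈ I0 k → q.IsHomogeneous 2 →
        q ∈ Ideal.span (B \ {g}) := by
      intro q hq hq2
      rw [← h2, ← hins] at hq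
      obtain ⟨a, z, hz, rfl⟩ := Submodule.mem_span_insert.1 hq
      rw [← homogeneousComponent_eq_self hq2, map_add, smul_eq_mul, comp_mul_lt hd (by omega), zero_add]
      exact hhom z hz 2
    rw [I0, Ideal.span_le]
    rintro b (rfl | rfl)
    · exact key _ q1_mem q1_hom
    · exact key _ q2_mem q2_hom

end Pool.Agent.Q180.BI
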