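import Pool.Agent.Q180.BI.Ex

/-!
# No symmetric ideal generated by monomials and binomials has the Hilbert function of `I0`
-/

set_option autoImplicit false

namespace Pool.Agent.Q180.BI

open MvPolynomial

variable {k : Type*} [Field k] [CharZero k] {J : Ideal (MvPolynomial (Fin 3) k)}

lemma exists_perm2 : ∀ p q : Fin 3, p ≠ q → ∃ τ : Equiv.Perm (Fin 3), τ p = 0 ∧ τ q = 1 := by
  decide

lemma exists_perm3 : ∀ p q r : Fin 3, p ≠ q → p ≠ r → q ≠ r →
    ∃ τ : Equiv.Perm (Fin 3), τ p = 0 ∧ τ q = 1 ∧ τ r = 2 := by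
  decide

lemma exists_third : ∀ p q : Fin 3, p ≠ q → ∃ r : Fin 3, p ≠ r ∧ q ≠ r := by
  decide

lemma exists_other : ∀ i : Fin 3, ∃ p : Fin 3, i ≠ p := by
  decide

lemma no_four : ∀ i j p q : Fin 3, i ≠ j → p ≠ q → i ≠ p → i ≠ q → j ≠ p → j ≠ q → False := by
  intro i j p q
  omega

omit [CharZero k] in
/-- six linearly independent forms of degree 3 -/
lemma six (v : Fin 6 → MvPolynomial (Fin 3) k) (hv : LinearIndependent k v)
    (hJ : ∀ i, v i ∈ part J 3) : 6 ≤ Module.finrank k (part J 3) := by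
  have h1 : Submodule.span k (Set.range v) ≤ part J 3 := by
    rw [Submodule.span_le]
    rintro _ ⟨i, rfl⟩
    exact hJ i
  have h2 := finrank_span_eq_card hv
  rw [Fintype.card_fin] at h2
  rw [← h2]
  exact Submodule.finrank_mono h1

lemma squares (hS : Symm J) (h3 : Module.finrank k (part J 3) ≤ 5) {p q : Fin 3} (hpq : p ≠ q)
    (h : X p * X p - X q * X q ∈ J) : False := by
  obtain ⟨τ, hp, hq⟩ := exists_perm2 p q hpq
  have hA : (X 0 * X 0 - X 1 * X 1 : MvPolynomial (Fin 3) k) ∈ J := by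
    have := (hS τ _).2 h
    simpa [hp, hq] using this
  have hB : (X 1 * X 1 - X 2 * X 2 : MvPolynomial (Fin 3) k) ∈ J := by
    obtain ⟨σ, h0, h1⟩ : ∃ σ : Equiv.Perm (Fin 3), σ 0 = 1 ∧ σ 1 = 2 := by decide
    have := (hS σ _).2 hA
    simpa [h0, h1] using this
  have hAh : (X 0 * X 0 - X 1 * X 1 : MvPolynomial (Fin 3) k).IsHomogeneous 2 :=
    ((isHomogeneous_X k 0).mul (isHomogeneous_X k 0)).sub
      ((isHomogeneous_X k 1).mul (isHomogeneous_X k 1))
  have hBh : (X 1 * X 1 - X 2 * X 2 : MvPolynomial (Fin 3) k).IsHomogeneous 2 :=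
    ((isHomogeneous_X k 1).mul (isHomogeneous_X k 1)).sub
      ((isHomogeneous_X k 2).mul (isHomogeneous_X k 2))
  have h6 := six (J := J) ![X 0 * (X 0 * X 0 - X 1 * X 1), X 1 * (X 0 * X 0 - X 1 * X 1),
    X 2 * (X 0 * X 0 - X 1 * X 1), X 0 * (X 1 * X 1 - X 2 * X 2), X 1 * (X 1 * X 1 - X 2 * X 2),
    X 2 * (X 1 * X 1 - X 2 * X 2)] ?_ ?_
  · omega
  · rw [Fintype.linearIndependent_iff]
    intro c hc
    simp only [Fin.sum_univ_succ, Fin.sum_univ_zero, add_zero] at hc
    have e : ∀ x y z : k, (c 0 * x + c 1 * y + c 2 * z) * (x * x - y * y) +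
        (c 3 * x + c 4 * y + c 5 * z) * (y * y - z * z) = 0 := by
      intro x y z
      have := congrArg (eval ![x, y, z]) hc
      simp [smul_eq_C_mul] at this
      linear_combination this
    have e1 := e 1 0 0
    have e2 := e 0 0 1
    have e3 := e 1 0 1
    have e4 := e 1 0 (-1)
    have e5 := e 0 1 0
    have e6 := e 1 1 0
    have z0 : c 0 = 0 := by linear_combination e1
    have z5 : c 5 = 0 := by linear_combination -e2
    have z2 : (2 : k) * c 2 = 0 := by linear_combination e3 - e4 + 2 * z5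
    have z3 : (2 : k) * c 3 = 0 := by linear_combination 2 * z0 - e3 - e4
    have z4 : c 4 = 0 := by linear_combination e6 - z3 / 2
    have z1 : c 1 = 0 := by linear_combination z4 - e5
    have z2' : c 2 = 0 := by linear_combination z2 / 2
    have z3' : c 3 = 0 := by linear_combination z3 / 2
    intro i
    fin_cases i <;> assumption
  · intro i
    fin_cases i
    · exact mem_part.2 ⟨(isHomogeneous_X k 0).mul hAh, J.mul_mem_left _ hA⟩
    · exact mem_part.2 ⟨(isHomogeneous_X k 1).mul hAh, J.mul_mem_left _ hA⟩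
    · exact mem_part.2 ⟨(isHomogeneous_X k 2).mul hAh, J.mul_mem_left _ hA⟩
    · exact mem_part.2 ⟨(isHomogeneous_X k 0).mul hBh, J.mul_mem_left _ hB⟩
    · exact mem_part.2 ⟨(isHomogeneous_X k 1).mul hBh, J.mul_mem_left _ hB⟩
    · exact mem_part.2 ⟨(isHomogeneous_X k 2).mul hBh, J.mul_mem_left _ hB⟩

lemma products (hS : Symm J) (h3 : Module.finrank k (part J 3) ≤ 5) {p q r : Fin 3} (hpq : p ≠ q)
    (hpr : p ≠ r) (hqr : q ≠ r) (h : X p * X q - X p * X r ∈ J) : False := by
  obtain ⟨τ, hp, hq, hr⟩ := exists_perm3 p q r hpq hpr hqr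
  have hA : (X 0 * X 1 - X 0 * X 2 : MvPolynomial (Fin 3) k) ∈ J := by
    have := (hS τ _).2 h
    simpa [hp, hq, hr] using this
  have hB : (X 1 * X 0 - X 1 * X 2 : MvPolynomial (Fin 3) k) ∈ J := by
    obtain ⟨σ, h0, h1, h2⟩ : ∃ σ : Equiv.Perm (Fin 3), σ 0 = 1 ∧ σ 1 = 0 ∧ σ 2 = 2 := by decide
    have := (hS σ _).2 hA
    simpa [h0, h1, h2] using this
  have hAh : (X 0 * X 1 - X 0 * X 2 : MvPolynomial (Fin 3) k).IsHomogeneous 2 :=
    ((isHomogeneous_X k 0).mul (isHomogeneous_X k 1)).sub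
      ((isHomogeneous_X k 0).mul (isHomogeneous_X k 2))
  have hBh : (X 1 * X 0 - X 1 * X 2 : MvPolynomial (Fin 3) k).IsHomogeneous 2 :=
    ((isHomogeneous_X k 1).mul (isHomogeneous_X k 0)).sub
      ((isHomogeneous_X k 1).mul (isHomogeneous_X k 2))
  have h6 := six (J := J) ![X 0 * (X 0 * X 1 - X 0 * X 2), X 1 * (X 0 * X 1 - X 0 * X 2),
    X 2 * (X 0 * X 1 - X 0 * X 2), X 0 * (X 1 * X 0 - X 1 * X 2), X 1 * (X 1 * X 0 - X 1 * X 2),
    X 2 * (X 1 * X 0 - X 1 * X 2)] ?_ ?_
  · omega
  · rw [Fintype.linearIndependent_iff]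
    intro c hc
    simp only [Fin.sum_univ_succ, Fin.sum_univ_zero, add_zero] at hc
    have e : ∀ x y z : k, (c 0 * x + c 1 * y + c 2 * z) * (x * y - x * z) +
        (c 3 * x + c 4 * y + c 5 * z) * (y * x - y * z) = 0 := by
      intro x y z
      have := congrArg (eval ![x, y, z]) hc
      simp [smul_eq_C_mul] at this
      linear_combination this
    have e1 := e 1 1 0
    have e2 := e 1 (-1) 0
    have e3 := e 1 0 1
    have e4 := e 1 0 (-1)
    have e5 := e 0 1 1
    have e6 := e 0 1 (-1)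
    have z0 : c 0 = 0 := by linear_combination (e4 - e3) / 2
    have z2 : c 2 = 0 := by linear_combination -(e4 + e3) / 2
    have z4 : c 4 = 0 := by linear_combination (e6 - e5) / 2
    have z5 : c 5 = 0 := by linear_combination -(e6 + e5) / 2
    have z1 : c 1 = 0 := by linear_combination (e1 + e2) / 2 - z4
    have z3 : c 3 = 0 := by linear_combination (e1 - e2) / 2 - z0
    intro i
    fin_cases i <;> assumption
  · intro i
    fin_cases i
    · exact mem_part.2 ⟨(isHomogeneous_X k 0).mul hAh, J.mul_mem_left _ hA⟩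
    · exact mem_part.2 ⟨(isHomogeneous_X k 1).mul hAh, J.mul_mem_left _ hA⟩
    · exact mem_part.2 ⟨(isHomogeneous_X k 2).mul hAh, J.mul_mem_left _ hA⟩
    · exact mem_part.2 ⟨(isHomogeneous_X k 0).mul hBh, J.mul_mem_left _ hB⟩
    · exact mem_part.2 ⟨(isHomogeneous_X k 1).mul hBh, J.mul_mem_left _ hB⟩
    · exact mem_part.2 ⟨(isHomogeneous_X k 2).mul hBh, J.mul_mem_left _ hB⟩

omit [CharZero k] in
/-- three linearly independent forms of degree 2 -/
lemma mixed (hS : Symm J) (h2 : Module.finrank k (part J 2) ≤ 2) {i p q : Fin 3} (hip : i ≠ p)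
    (hiq : i ≠ q) (hpq : p ≠ q) {a b : k} (ha : a ≠ 0)
    (h : C a * (X i * X i) + C b * (X p * X q) ∈ J) : False := by
  obtain ⟨τ, hi, hp, hq⟩ := exists_perm3 i p q hip hiq hpq
  have h0 : (C a * (X 0 * X 0) + C b * (X 1 * X 2) : MvPolynomial (Fin 3) k) ∈ J := by
    have := (hS τ _).2 h
    simpa [hp, hq, hi] using this
  have h1 : (C a * (X 1 * X 1) + C b * (X 0 * X 2) : MvPolynomial (Fin 3) k) ∈ J := by
    obtain ⟨σ, e0, e1, e2⟩ : ∃ σ : Equiv.Perm (Fin 3), σ 0 = 1 ∧ σ 1 = 0 ∧ σ 2 = 2 := by decide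
    have := (hS σ _).2 h0
    simpa [e0, e1, e2] using this
  have h2' : (C a * (X 2 * X 2) + C b * (X 1 * X 0) : MvPolynomial (Fin 3) k) ∈ J := by
    obtain ⟨σ, e0, e1, e2⟩ : ∃ σ : Equiv.Perm (Fin 3), σ 0 = 2 ∧ σ 1 = 1 ∧ σ 2 = 0 := by decide
    have := (hS σ _).2 h0
    simpa [e0, e1, e2] using this
  have hh : ∀ x y z : Fin 3, (C a * (X x * X x) + C b * (X y * X z) :
      MvPolynomial (Fin 3) k).IsHomogeneous 2 := fun x y z =>
    (((isHomogeneous_X k x).mul (isHomogeneous_X k x)).C_mul a).add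
      (((isHomogeneous_X k y).mul (isHomogeneous_X k z)).C_mul b)
  have hli : LinearIndependent k ![(C a * (X 0 * X 0) + C b * (X 1 * X 2) : MvPolynomial (Fin 3) k),
      C a * (X 1 * X 1) + C b * (X 0 * X 2), C a * (X 2 * X 2) + C b * (X 1 * X 0)] := by
    rw [Fintype.linearIndependent_iff]
    intro c hc
    simp only [Fin.sum_univ_succ, Fin.sum_univ_zero, add_zero] at hc
    have e : ∀ x y z : k, c 0 * (a * (x * x) + b * (y * z)) + c 1 * (a * (y * y) + b * (x * z)) +
        c 2 * (a * (z * z) + b * (y * x)) = 0 := by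
      intro x y z
      have := congrArg (eval ![x, y, z]) hc
      simp [smul_eq_C_mul] at this
      linear_combination this
    have e1 := e 1 0 0
    have e2 := e 0 1 0
    have e3 := e 0 0 1
    have z0 : c 0 = 0 := by
      have : c 0 * a = 0 := by linear_combination e1
      exact (mul_eq_zero.1 this).resolve_right ha
    have z1 : c 1 = 0 := by
      have : c 1 * a = 0 := by linear_combination e2
      exact (mul_eq_zero.1 this).resolve_right ha
    have z2 : c 2 = 0 := by
      have : c 2 * a = 0 := by linear_combination e3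
      exact (mul_eq_zero.1 this).resolve_right ha
    intro i
    fin_cases i <;> assumption
  have hle : Submodule.span k (Set.range ![(C a * (X 0 * X 0) + C b * (X 1 * X 2) :
      MvPolynomial (Fin 3) k), C a * (X 1 * X 1) + C b * (X 0 * X 2),
      C a * (X 2 * X 2) + C b * (X 1 * X 0)]) ≤ part J 2 := by
    rw [Submodule.span_le]
    rintro _ ⟨i, rfl⟩
    fin_cases i
    · exact mem_part.2 ⟨hh _ _ _, h0⟩
    · exact mem_part.2 ⟨hh _ _ _, h1⟩
    · exact mem_part.2 ⟨hh _ _ _, h2'⟩
  have h5 := finrank_span_eq_card hli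
  have h6 := Submodule.finrank_mono hle
  rw [h5, Fintype.card_fin] at h6
  omega

omit [CharZero k] in
lemma unscale {b : k} (hb : b ≠ 0) {f : MvPolynomial (Fin 3) k} (h : C b * f ∈ J) : f ∈ J := by
  have := J.mul_mem_left (C b⁻¹) h
  rwa [← mul_assoc, ← C_mul, inv_mul_cancel₀ hb, C_1, one_mul] at this

lemma mono_case (hS : Symm J) (h3 : Module.finrank k (part J 3) ≤ 5) {i j : Fin 3}
    (h : X i * X j ∈ J) : False := by
  by_cases hij : i = j
  · subst hij
    obtain ⟨p, hp⟩ := exists_other i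
    apply squares hS h3 hp
    apply J.sub_mem h
    have := (hS (Equiv.swap i p) _).2 h
    simpa using this
  · obtain ⟨r, hir, hjr⟩ := exists_third i j hij
    apply products hS h3 hij hir hjr
    apply J.sub_mem h
    have := (hS (Equiv.swap j r) _).2 h
    simpa [Equiv.swap_apply_of_ne_of_ne hij hir] using this

lemma bin_case (hS : Symm J) (h2 : Module.finrank k (part J 2) ≤ 2)
    (h3 : Module.finrank k (part J 3) ≤ 5) {i j p q : Fin 3} {a b : k} (ha : a ≠ 0) (hb : b ≠ 0)
    (hne : ¬ ((i = p ∧ j = q) ∨ (i = q ∧ j = p)))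
    (h : C a * (X i * X j) + C b * (X p * X q) ∈ J) : False := by
  -- a permutation `τ` fixing the first monomial
  have diff : ∀ (i j p q : Fin 3) (a b : k), b ≠ 0 → C a * (X i * X j) + C b * (X p * X q) ∈ J →
      ∀ τ : Equiv.Perm (Fin 3), ((X (τ i) * X (τ j) : MvPolynomial (Fin 3) k) = X i * X j) →
      (X p * X q - X (τ p) * X (τ q) : MvPolynomial (Fin 3) k) ∈ J := by
    intro i j p q a b hb h τ hτ
    apply unscale hb
    have h1 := (hS τ _).2 h
    rw [map_add, map_mul, map_mul, map_mul, map_mul, rename_C, rename_C, rename_X, rename_X,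
      rename_X, rename_X, hτ] at h1
    have := J.sub_mem h h1
    convert this using 1
    ring
  -- a square and a product
  have sqpr : ∀ (i p q : Fin 3) (a b : k), a ≠ 0 → b ≠ 0 → p ≠ q →
      C a * (X i * X i) + C b * (X p * X q) ∈ J → False := by
    intro i p q a b ha hb hpq h
    by_cases hip : i = p
    · subst hip
      obtain ⟨r, hir, hqr⟩ := exists_third i q hpq
      have h1 := diff i i i q a b hb h (Equiv.swap q r)
        (by rw [Equiv.swap_apply_of_ne_of_ne hpq hir])
      rw [Equiv.swap_apply_of_ne_of_ne hpq hir, Equiv.swap_apply_left] at h1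
      exact products hS h3 hpq hir hqr h1
    by_cases hiq : i = q
    · subst hiq
      obtain ⟨r, hir, hpr⟩ := exists_third i p (Ne.symm hpq)
      have h1 := diff i i p i a b hb h (Equiv.swap p r)
        (by rw [Equiv.swap_apply_of_ne_of_ne hip hir])
      rw [Equiv.swap_apply_of_ne_of_ne hip hir, Equiv.swap_apply_left, mul_comm (X p),
        mul_comm (X r)] at h1
      exact products hS h3 hip hir hpr h1
    · exact mixed hS h2 hip hiq hpq ha h
  have hsym : C b * (X p * X q) + C a * (X i * X j) ∈ J := by rwa [add_comm]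
  by_cases hij : i = j
  · subst hij
    by_cases hpq : p = q
    · subst hpq
      have hip : i ≠ p := fun e => hne (Or.inl ⟨e, e⟩)
      obtain ⟨r, hir, hpr⟩ := exists_third i p hip
      have h1 := diff i i p p a b hb h (Equiv.swap p r)
        (by rw [Equiv.swap_apply_of_ne_of_ne hip hir])
      rw [Equiv.swap_apply_left] at h1
      exact squares hS h3 hpr h1
    · exact sqpr i p q a b ha hb hpq h
  · by_cases hpq : p = q
    · subst hpq
      exact sqpr p i j b a hb ha hij hsym
    · -- two distinct products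
      have two : ∀ (i j q : Fin 3) (a b : k), b ≠ 0 → i ≠ j → i ≠ q → j ≠ q →
          C a * (X i * X j) + C b * (X i * X q) ∈ J → False := by
        intro i j q a b hb hij hiq hjq h
        have h1 := diff i j i q a b hb h (Equiv.swap i j)
          (by rw [Equiv.swap_apply_left, Equiv.swap_apply_right, mul_comm])
        rw [Equiv.swap_apply_left, Equiv.swap_apply_of_ne_of_ne (Ne.symm hiq) (Ne.symm hjq),
          mul_comm (X i), mul_comm (X j)] at h1
        exact products hS h3 (Ne.symm hiq) (Ne.symm hjq) hij h1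
      by_cases h1 : i = p
      · subst h1
        exact two i j q a b hb hij hpq (fun e => hne (Or.inl ⟨rfl, e⟩)) h
      by_cases h4 : i = q
      · subst h4
        rw [mul_comm (X p)] at h
        exact two i j p a b hb hij h1 (fun e => hne (Or.inr ⟨rfl, e⟩)) h
      by_cases h5 : j = p
      · subst h5
        rw [mul_comm (X i)] at h
        exact two j i q a b hb (Ne.symm hij) hpq h4 h
      by_cases h6 : j = q
      · subst h6
        rw [mul_comm (X i), mul_comm (X p)] at h
        exact two j i p a b hb (Ne.symm hij) h5 h1 h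
      · exact no_four i j p q hij hpq h1 h4 h5 h6

/-- a monomial of degree 2 is a product of two variables -/
lemma deg_two {m : Fin 3 →₀ ℕ} (hm : m.degree = 2) :
    ∃ i j : Fin 3, m = Finsupp.single i 1 + Finsupp.single j 1 := by
  rw [Finsupp.degree_eq_sum, Fin.sum_univ_three] at hm
  have key : ∀ i j : Fin 3, m 0 = (Finsupp.single i 1 + Finsupp.single j 1 : Fin 3 →₀ ℕ) 0 →
      m 1 = (Finsupp.single i 1 + Finsupp.single j 1 : Fin 3 →₀ ℕ) 1 →
      m 2 = (Finsupp.single i 1 + Finsupp.single j 1 : Fin 3 →₀ ℕ) 2 →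
      ∃ i j : Fin 3, m = Finsupp.single i 1 + Finsupp.single j 1 := by
    intro i j h0 h1 h2
    refine ⟨i, j, ?_⟩
    ext l
    fin_cases l
    · exact h0
    · exact h1
    · exact h2
  have h : (m 0 = 2 ∧ m 1 = 0 ∧ m 2 = 0) ∨ (m 0 = 0 ∧ m 1 = 2 ∧ m 2 = 0) ∨
      (m 0 = 0 ∧ m 1 = 0 ∧ m 2 = 2) ∨ (m 0 = 1 ∧ m 1 = 1 ∧ m 2 = 0) ∨
      (m 0 = 1 ∧ m 1 = 0 ∧ m 2 = 1) ∨ (m 0 = 0 ∧ m 1 = 1 ∧ m 2 = 1) := by omega
  rcases h with ⟨h0, h1, h2⟩ | ⟨h0, h1, h2⟩ | ⟨h0, h1, h2⟩ | ⟨h0, h1, h2⟩ | ⟨h0, h1, h2⟩ | ⟨h0, h1, h2⟩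
  · exact key 0 0 (by simp [h0]) (by simp [h1]) (by simp [h2])
  · exact key 1 1 (by simp [h0]) (by simp [h1]) (by simp [h2])
  · exact key 2 2 (by simp [h0]) (by simp [h1]) (by simp [h2])
  · exact key 0 1 (by simp [h0]) (by simp [h1]) (by simp [h2])
  · exact key 0 2 (by simp [h0]) (by simp [h1]) (by simp [h2])
  · exact key 1 2 (by simp [h0]) (by simp [h1]) (by simp [h2])

omit [CharZero k] in
lemma monomial_two (i j : Fin 3) (a : k) :
    monomial (Finsupp.single i 1 + Finsupp.single j 1 : Fin 3 →₀ ℕ) a = C a * (X i * X j) := by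
  rw [X, X, monomial_mul, C_mul_monomial, mul_one, mul_one]

theorem main (hH : Homog J) (hS : Symm J) (hB : MonoBin J) (h : ∀ d, Hilb J d = Hilb (I0 k) d) :
    False := by
  have h01 : ∀ d, d < 2 → ∀ f ∈ J, f.IsHomogeneous d → f = 0 := by
    intro d hd f hf hfd
    have h1 := finrank_part_eq (h d)
    rw [part_lt hd, finrank_bot] at h1
    have h2 : part J d = ⊥ := Submodule.finrank_eq_zero.1 h1
    have h3 : f ∈ part J d := mem_part.2 ⟨hfd, hf⟩
    rw [h2] at h3
    exact h3
  have h2 : Module.finrank k (part J 2) ≤ 2 := by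
    rw [finrank_part_eq (h 2)]; exact finrank_two_le
  have h2' : 0 < Module.finrank k (part J 2) := by
    rw [finrank_part_eq (h 2)]; exact finrank_two_pos
  have h3 : Module.finrank k (part J 3) ≤ 5 := by
    rw [finrank_part_eq (h 3)]; exact finrank_three_le
  obtain ⟨B, hBJ, hB⟩ := hB
  -- a generator with a term of degree at most 2
  obtain ⟨g, hg, m, hm, hgm⟩ : ∃ g ∈ B, ∃ m : Fin 3 →₀ ℕ, m.degree ≤ 2 ∧ coeff m g ≠ 0 := by
    by_contra hcon
    push Not at hcon
    have h4 := order_span hcon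
    rw [hBJ] at h4
    rw [Module.finrank_pos_iff_exists_ne_zero] at h2'
    obtain ⟨⟨f, hf⟩, hf0⟩ := h2'
    apply hf0
    apply Subtype.ext
    rw [mem_part] at hf
    change f = 0
    ext m
    rw [coeff_zero]
    by_cases hm : m.degree = 2
    · exact h4 f hf.2 m hm.le
    · exact hf.1.coeff_eq_zero hm
  have hgJ : g ∈ J := by rw [← hBJ]; exact Ideal.subset_span hg
  have hm2 : m.degree = 2 := by
    by_contra hne
    have h5 := h01 m.degree (by omega) _ (hH g hgJ m.degree) (homogeneousComponent_isHomogeneous _ _)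
    have h6 := congrArg (coeff m) h5
    rw [coeff_homogeneousComponent, if_pos rfl, coeff_zero] at h6
    exact hgm h6
  -- a monomial of degree 2 in `J`
  have single_case : ∀ (m : Fin 3 →₀ ℕ) (a : k), m.degree = 2 → a ≠ 0 → monomial m a ∈ J → False := by
    intro m a hm ha h
    obtain ⟨i, j, rfl⟩ := deg_two hm
    rw [monomial_two] at h
    exact mono_case hS h3 (unscale ha h)
  have double_case : ∀ (m m' : Fin 3 →₀ ℕ) (a b : k), m ≠ m' → m.degree = 2 → a ≠ 0 → b ≠ 0 →
      monomial m a + monomial m' b ∈ J → False := by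
    intro m m' a b hne hm ha hb h
    by_cases hm' : m'.degree = 2
    · obtain ⟨i, j, rfl⟩ := deg_two hm
      obtain ⟨p, q, rfl⟩ := deg_two hm'
      rw [monomial_two, monomial_two] at h
      refine bin_case hS h2 h3 ha hb ?_ h
      rintro (⟨rfl, rfl⟩ | ⟨rfl, rfl⟩)
      · exact hne rfl
      · exact hne (add_comm _ _)
    · have h4 := hH _ h 2
      rw [map_add, homogeneousComponent_of_mem (isHomogeneous_monomial a rfl), if_pos hm.symm,
        homogeneousComponent_of_mem (isHomogeneous_monomial b rfl), if_neg (Ne.symm hm'), add_zero] at h4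
      exact single_case m a hm ha h4
  rcases hB g hg with ⟨m₁, rfl⟩ | ⟨m₁, m₂, a, b, hne, ha, hb, rfl⟩
  · rw [coeff_monomial] at hgm
    have : m₁ = m := by
      by_contra h'
      exact hgm (if_neg h')
    subst this
    exact single_case _ 1 hm2 one_ne_zero hgJ
  · rw [coeff_add, coeff_monomial, coeff_monomial] at hgm
    by_cases e1 : m₁ = m
    · subst e1
      exact double_case _ _ a b hne hm2 ha hb hgJ
    · by_cases e2 : m₂ = m
      · subst e2
        rw [add_comm] at hgJ
        exact double_case _ _ b a (Ne.symm hne) hm2 hb ha hgJ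
      · rw [if_neg e1, if_neg e2, add_zero] at hgm
        exact hgm rfl

end Pool.Agent.Q180.BI
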